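import Mathlib

/-!
# A connected graph on 11 vertices with an unexpected energy-decreasing edge subdivision

The energy of a graph is the sum of the absolute values of its adjacency eigenvalues.  We exhibit
a connected graph on 11 vertices and an edge `ij` whose subdivision lowers the energy, although
`ij` is not the central edge of an induced diamond and `i`, `j` have different closed
neighbourhoods.  The two energies are separated by integer certificates.
-/

namespace Pool.Agent.Results.MP_8ce0fa_co.EnergyDrop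

open Finset Matrix

/-! ### Definitions used by the statement -/

section Defs

variable {V : Type*}

open Classical in
/-- The real adjacency matrix of a graph is Hermitian. -/
theorem isHermitian_adjMatrix [Fintype V] (G : SimpleGraph V) :
    (G.adjMatrix ℝ).IsHermitian := by
  ext i j
  simp [SimpleGraph.adjMatrix_apply, SimpleGraph.adj_comm]

open Classical in
/-- The energy of a finite graph: the sum of the absolute values of the eigenvalues of its
adjacency matrix. -/
noncomputable def energy [Fintype V] (G : SimpleGraph V) : ℝ :=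
  ∑ k : V, |(isHermitian_adjMatrix G).eigenvalues k|

/-- The graph obtained from `G` by subdividing `ij`: the edge `ij` is deleted and a new vertex
`none` adjacent to exactly `i` and `j` is added. -/
def subdivide (G : SimpleGraph V) (i j : V) : SimpleGraph (Option V) where
  Adj
    | some a, some b => G.Adj a b ∧ ¬ (a = i ∧ b = j) ∧ ¬ (a = j ∧ b = i)
    | some a, none => a = i ∨ a = j
    | none, some b => b = i ∨ b = j
    | none, none => False
  symm := ⟨by
    rintro (_ | a) (_ | b) h
    · exact h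
    · exact h
    · exact h
    · exact ⟨h.1.symm, fun h' => h.2.2 ⟨h'.2, h'.1⟩, fun h' => h.2.1 ⟨h'.2, h'.1⟩⟩⟩
  loopless := ⟨by
    rintro (_ | a) h
    · exact h
    · exact G.loopless.irrefl a h.1⟩

/-- `ij` is the central edge of some induced diamond of `G`: there are two nonadjacent vertices
`a ≠ b`, both adjacent to `i` and to `j`. -/
def IsCentralEdgeOfInducedDiamond (G : SimpleGraph V) (i j : V) : Prop :=
  G.Adj i j ∧ ∃ a b : V, a ≠ b ∧ ¬ G.Adj a b ∧
    G.Adj i a ∧ G.Adj i b ∧ G.Adj j a ∧ G.Adj j b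

/-- The closed neighbourhood of `i`. -/
def closedNbhd (G : SimpleGraph V) (i : V) : Set V := insert i (G.neighborSet i)

/-- Condition 2: `N[i] = N[j] = W`, the graph `G[W]` is complete, and every vertex of
`W \ {i, j}` has degree strictly larger than the degree of `i`. -/
def CliqueCondition (G : SimpleGraph V) (i j : V) : Prop :=
  closedNbhd G i = closedNbhd G j ∧
  (∀ x ∈ closedNbhd G i, ∀ y ∈ closedNbhd G i, x ≠ y → G.Adj x y) ∧
  ∀ w ∈ closedNbhd G i, w ≠ i → w ≠ j → (G.neighborSet i).ncard < (G.neighborSet w).ncard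

end Defs

/-! ### Bounds for the sum of the absolute values of the eigenvalues -/

section Bounds

variable {V : Type*} [Fintype V] [DecidableEq V] {A : Matrix V V ℝ} (hA : A.IsHermitian)

lemma trace_eq_sum (M : Matrix V V ℝ) :
    M.trace = ∑ k, (hA.eigenvectorBasis k : V → ℝ) ⬝ᵥ (M *ᵥ (hA.eigenvectorBasis k : V → ℝ)) := by
  have hU : (hA.eigenvectorUnitary : Matrix V V ℝ) * star (hA.eigenvectorUnitary : Matrix V V ℝ)
      = 1 := Unitary.coe_mul_star_self _
  have h1 : M.trace = (star (hA.eigenvectorUnitary : Matrix V V ℝ) *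
      (M * (hA.eigenvectorUnitary : Matrix V V ℝ))).trace := by
    rw [Matrix.trace_mul_comm, Matrix.mul_assoc, hU, Matrix.mul_one]
  rw [h1, Matrix.trace]
  refine sum_congr rfl fun k _ => ?_
  rw [Matrix.diag_apply, Matrix.mul_apply, dotProduct]
  refine sum_congr rfl fun i _ => ?_
  congr 1

lemma basis_dot_self (k : V) :
    (hA.eigenvectorBasis k : V → ℝ) ⬝ᵥ (hA.eigenvectorBasis k : V → ℝ) = 1 := by
  have h := hA.eigenvectorBasis.orthonormal.1 k
  have h2 : inner ℝ (hA.eigenvectorBasis k) (hA.eigenvectorBasis k) = (1 : ℝ) := by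
    rw [real_inner_self_eq_norm_sq, h]; norm_num
  rw [EuclideanSpace.inner_eq_star_dotProduct] at h2
  simpa using h2

lemma dot_eig (k : V) : (hA.eigenvectorBasis k : V → ℝ) ⬝ᵥ (A *ᵥ (hA.eigenvectorBasis k : V → ℝ))
    = hA.eigenvalues k := by
  rw [hA.mulVec_eigenvectorBasis k, dotProduct_smul, basis_dot_self, smul_eq_mul, mul_one]

/-- If `B ± s A ≥ 0` then `s` times the sum of the `|λ_k(A)|` is at most the trace of `B`. -/
lemma sum_abs_le (B : Matrix V V ℝ) (s : ℝ) (hs : 0 ≤ s)
    (h1 : ∀ x : V → ℝ, 0 ≤ x ⬝ᵥ (B *ᵥ x) + s * (x ⬝ᵥ (A *ᵥ x)))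
    (h2 : ∀ x : V → ℝ, 0 ≤ x ⬝ᵥ (B *ᵥ x) - s * (x ⬝ᵥ (A *ᵥ x))) :
    s * ∑ k, |hA.eigenvalues k| ≤ B.trace := by
  rw [trace_eq_sum hA B, mul_sum]
  refine sum_le_sum fun k _ => ?_
  have e1 := h1 (hA.eigenvectorBasis k : V → ℝ)
  have e2 := h2 (hA.eigenvectorBasis k : V → ℝ)
  rw [dot_eig] at e1 e2
  have e3 : s * |hA.eigenvalues k| = |s * hA.eigenvalues k| := by
    rw [abs_mul, abs_of_nonneg hs]
  rw [e3, abs_le]
  constructor <;> linarith

/-- If `s ± Y ≥ 0` then `tr (A Y)` is at most `s` times the sum of the `|λ_k(A)|`. -/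
lemma le_sum_abs (Y : Matrix V V ℝ) (s : ℝ)
    (h1 : ∀ x : V → ℝ, 0 ≤ s * (x ⬝ᵥ x) + x ⬝ᵥ (Y *ᵥ x))
    (h2 : ∀ x : V → ℝ, 0 ≤ s * (x ⬝ᵥ x) - x ⬝ᵥ (Y *ᵥ x)) :
    (A * Y).trace ≤ s * ∑ k, |hA.eigenvalues k| := by
  rw [trace_eq_sum hA (A * Y), mul_sum]
  refine sum_le_sum fun k _ => ?_
  have e1 := h1 (hA.eigenvectorBasis k : V → ℝ)
  have e2 := h2 (hA.eigenvectorBasis k : V → ℝ)
  rw [basis_dot_self, mul_one] at e1 e2
  set v := (hA.eigenvectorBasis k : V → ℝ) with hv
  have hsymm : Aᵀ = A := by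
    have := hA.eq
    rwa [Matrix.conjTranspose_eq_transpose_of_trivial] at this
  have h3 : v ⬝ᵥ ((A * Y) *ᵥ v) = hA.eigenvalues k * (v ⬝ᵥ (Y *ᵥ v)) := by
    rw [← Matrix.mulVec_mulVec, Matrix.dotProduct_mulVec, ← Matrix.mulVec_transpose, hsymm,
      hv, hA.mulVec_eigenvectorBasis k, smul_dotProduct, smul_eq_mul]
  rw [h3]
  have h4 : |v ⬝ᵥ (Y *ᵥ v)| ≤ s := by
    rw [abs_le]; constructor <;> linarith
  calc hA.eigenvalues k * (v ⬝ᵥ (Y *ᵥ v)) ≤ |hA.eigenvalues k * (v ⬝ᵥ (Y *ᵥ v))| := le_abs_self _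
    _ = |hA.eigenvalues k| * |v ⬝ᵥ (Y *ᵥ v)| := abs_mul _ _
    _ ≤ |hA.eigenvalues k| * s := mul_le_mul_of_nonneg_left h4 (abs_nonneg _)
    _ = s * |hA.eigenvalues k| := mul_comm _ _

end Bounds

/-! ### A positivity certificate with integer data -/

/-- If `K M - Rᵀ R` is symmetric and diagonally dominant then `M ≥ 0`. -/
lemma quad_nonneg {V : Type*} [Fintype V] [DecidableEq V] (M R : V → V → ℤ) (K : ℤ) (hK : 0 < K)
    (hsymm : ∀ i j, M i j = M j i)
    (hdd : ∀ i, ∑ j, |K * M i j - ∑ k, R k i * R k j| ≤ 2 * (K * M i i - ∑ k, R k i * R k i))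
    (x : V → ℝ) : 0 ≤ ∑ i, ∑ j, (M i j : ℝ) * (x i * x j) := by
  set E : V → V → ℤ := fun i j => K * M i j - ∑ k, R k i * R k j with hE
  have hEsymm : ∀ i j, E i j = E j i := by
    intro i j
    simp only [hE]
    rw [hsymm i j]
    congr 1
    exact sum_congr rfl fun k _ => mul_comm _ _
  have hdd' : ∀ i, ∑ j, |(E i j : ℝ)| ≤ 2 * (E i i : ℝ) := by
    intro i
    have := hdd i
    exact_mod_cast this
  -- the square part
  have hsq : ∑ i, ∑ j, ((∑ k, R k i * R k j : ℤ) : ℝ) * (x i * x j)
      = ∑ k, (∑ i, (R k i : ℝ) * x i) ^ 2 := by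
    have h1 : ∀ k, (∑ i, (R k i : ℝ) * x i) ^ 2
        = ∑ i, ∑ j, ((R k i : ℝ) * (R k j : ℝ)) * (x i * x j) := by
      intro k
      rw [pow_two, sum_mul_sum]
      exact sum_congr rfl fun i _ => sum_congr rfl fun j _ => by ring
    have h2 : ∑ k, ∑ i, ∑ j, ((R k i : ℝ) * (R k j : ℝ)) * (x i * x j)
        = ∑ i, ∑ j, ∑ k, ((R k i : ℝ) * (R k j : ℝ)) * (x i * x j) := by
      rw [sum_comm]
      exact sum_congr rfl fun i _ => sum_comm
    rw [sum_congr rfl fun k _ => h1 k, h2]
    refine sum_congr rfl fun i _ => ?_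
    refine sum_congr rfl fun j _ => ?_
    push_cast
    rw [sum_mul]
  have hE0 : 0 ≤ ∑ i, ∑ j, (E i j : ℝ) * (x i * x j) := by
    have hterm : ∀ i j, (if i = j then 2 * (E i i : ℝ) * x i ^ 2 else 0)
        - |(E i j : ℝ)| * ((x i ^ 2 + x j ^ 2) / 2) ≤ (E i j : ℝ) * (x i * x j) := by
      intro i j
      split_ifs with hij
      · subst hij
        have h0 : (0 : ℝ) ≤ E i i := by
          have h1 := hdd' i
          have h2 : |(E i i : ℝ)| ≤ ∑ j, |(E i j : ℝ)| :=
            single_le_sum (f := fun j => |(E i j : ℝ)|) (fun _ _ => abs_nonneg _) (mem_univ i)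
          have h3 := abs_nonneg (E i i : ℝ)
          linarith
        rw [abs_of_nonneg h0]
        apply le_of_eq
        ring
      · have h1 := neg_abs_le ((E i j : ℝ) * (x i * x j))
        rw [abs_mul] at h1
        have h2 : |x i * x j| ≤ (x i ^ 2 + x j ^ 2) / 2 := by
          rw [abs_le]
          constructor
          · nlinarith [sq_nonneg (x i + x j)]
          · nlinarith [sq_nonneg (x i - x j)]
        have h3 : |(E i j : ℝ)| * |x i * x j| ≤ |(E i j : ℝ)| * ((x i ^ 2 + x j ^ 2) / 2) :=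
          mul_le_mul_of_nonneg_left h2 (abs_nonneg _)
        linarith
    have hsum : ∑ i, ∑ j, ((if i = j then 2 * (E i i : ℝ) * x i ^ 2 else 0)
        - |(E i j : ℝ)| * ((x i ^ 2 + x j ^ 2) / 2)) =
        ∑ i, (2 * (E i i : ℝ) - ∑ j, |(E i j : ℝ)|) * x i ^ 2 := by
      have h1 : ∑ i, ∑ j, |(E i j : ℝ)| * ((x i ^ 2 + x j ^ 2) / 2) =
          ∑ i, (∑ j, |(E i j : ℝ)|) * x i ^ 2 := by
        have h2 : ∑ i, ∑ j, |(E i j : ℝ)| * ((x i ^ 2 + x j ^ 2) / 2) =
            ∑ i, ∑ j, |(E i j : ℝ)| * x i ^ 2 / 2 + ∑ i, ∑ j, |(E i j : ℝ)| * x j ^ 2 / 2 := by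
          rw [← sum_add_distrib]
          refine sum_congr rfl fun i _ => ?_
          rw [← sum_add_distrib]
          exact sum_congr rfl fun j _ => by ring
        have h3 : ∑ i, ∑ j, |(E i j : ℝ)| * x j ^ 2 / 2 =
            ∑ i, ∑ j, |(E i j : ℝ)| * x i ^ 2 / 2 := by
          rw [sum_comm]
          exact sum_congr rfl fun i _ => sum_congr rfl fun j _ => by rw [hEsymm j i]
        rw [h2, h3, ← sum_add_distrib]
        refine sum_congr rfl fun i _ => ?_
        rw [← sum_add_distrib, sum_mul]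
        exact sum_congr rfl fun j _ => by ring
      simp only [sum_sub_distrib, sum_ite_eq, mem_univ, if_true]
      rw [h1]
      simp only [sub_mul, sum_sub_distrib]
    calc (0 : ℝ) ≤ ∑ i, (2 * (E i i : ℝ) - ∑ j, |(E i j : ℝ)|) * x i ^ 2 := by
          refine sum_nonneg fun i _ => mul_nonneg ?_ (sq_nonneg _)
          have := hdd' i
          linarith
      _ = _ := hsum.symm
      _ ≤ _ := sum_le_sum fun i _ => sum_le_sum fun j _ => hterm i j
  have htot : (K : ℝ) * ∑ i, ∑ j, (M i j : ℝ) * (x i * x j)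
      = ∑ k, (∑ i, (R k i : ℝ) * x i) ^ 2 + ∑ i, ∑ j, (E i j : ℝ) * (x i * x j) := by
    rw [← hsq, ← sum_add_distrib, mul_sum]
    refine sum_congr rfl fun i _ => ?_
    rw [← sum_add_distrib, mul_sum]
    refine sum_congr rfl fun j _ => ?_
    simp only [hE]
    push_cast
    ring
  have hKr : (0 : ℝ) < K := by exact_mod_cast hK
  have hpos : 0 ≤ (K : ℝ) * ∑ i, ∑ j, (M i j : ℝ) * (x i * x j) := by
    rw [htot]
    exact add_nonneg (sum_nonneg fun k _ => sq_nonneg _) hE0
  exact (mul_nonneg_iff_of_pos_left hKr).1 hpos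

/-! ### The data -/

def adjG : List (List ℤ) :=
  [[0, 1, 1, 0, 1, 0, 0, 1, 1, 0, 0],
   [1, 0, 1, 0, 1, 0, 1, 1, 1, 0, 0],
   [1, 1, 0, 1, 1, 1, 1, 1, 1, 0, 1],
   [0, 0, 1, 0, 1, 1, 1, 0, 1, 1, 1],
   [1, 1, 1, 1, 0, 0, 1, 1, 1, 1, 1],
   [0, 0, 1, 1, 0, 0, 0, 1, 1, 1, 1],
   [0, 1, 1, 1, 1, 0, 0, 0, 0, 0, 1],
   [1, 1, 1, 0, 1, 1, 0, 0, 1, 1, 1],
   [1, 1, 1, 1, 1, 1, 0, 1, 0, 1, 0],
   [0, 0, 0, 1, 1, 1, 0, 1, 1, 0, 1],
   [0, 0, 1, 1, 1, 1, 1, 1, 0, 1, 0]]

def adjH : List (List ℤ) :=
  [[0, 0, 1, 0, 1, 0, 0, 1, 1, 0, 0, 1],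
   [0, 0, 1, 0, 1, 0, 1, 1, 1, 0, 0, 1],
   [1, 1, 0, 1, 1, 1, 1, 1, 1, 0, 1, 0],
   [0, 0, 1, 0, 1, 1, 1, 0, 1, 1, 1, 0],
   [1, 1, 1, 1, 0, 0, 1, 1, 1, 1, 1, 0],
   [0, 0, 1, 1, 0, 0, 0, 1, 1, 1, 1, 0],
   [0, 1, 1, 1, 1, 0, 0, 0, 0, 0, 1, 0],
   [1, 1, 1, 0, 1, 1, 0, 0, 1, 1, 1, 0],
   [1, 1, 1, 1, 1, 1, 0, 1, 0, 1, 0, 0],
   [0, 0, 0, 1, 1, 1, 0, 1, 1, 0, 1, 0],
   [0, 0, 1, 1, 1, 1, 1, 1, 0, 1, 0, 0],
   [1, 1, 0, 0, 0, 0, 0, 0, 0, 0, 0, 0]]

def Y : List (List ℤ) :=
  [[-38921, 52937, 22973, -26040, 22973, -10911, -11205, 38102, 38102, -10911, -26040],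
   [52937, -39044, 34367, -12840, 34367, -26040, 26929, 21167, 21167, -26040, -12840],
   [22973, 34367, -39424, 20576, 10566, 26753, 38200, 16743, 16743, -23237, 20576],
   [-26040, -12840, 20576, -23682, 20576, 29060, 40129, -26661, 23329, 29060, 26308],
   [22973, 34367, 10566, 20576, -39424, -23237, 38200, 16743, 16743, 26753, 20576],
   [-10911, -26040, 26753, 29060, -23237, -18329, -26334, 29354, 29354, 31661, 29060],
   [-11205, 26929, 38200, 40129, 38200, -26334, -4660, -28263, -28263, -26334, 40129],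
   [38102, 21167, 16743, -26661, 16743, 29354, -28263, -27222, 22768, 29354, 23329],
   [38102, 21167, 16743, 23329, 16743, 29354, -28263, 22768, -27222, 29354, -26661],
   [-10911, -26040, -23237, 29060, 26753, 31661, -26334, 29354, 29354, -18329, 29060],
   [-26040, -12840, 20576, 26308, 20576, 29060, 40129, 23329, -26661, 29060, -23682]]

def R1 : List (List ℤ) :=
  [[43434, 37346, 16171, -18374, 16171, -7690, -7860, 26894, 26894, -7690, -18374],
   [37346, 43330, 24237, -9057, 24237, -18373, 19005, 14939, 14939, -18373, -9057],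
   [16171, 24237, 50368, 14490, 182, 26148, 26964, 11822, 11822, -23656, 14490],
   [-18374, -9057, 14490, 61472, 14490, 20484, 28322, -26053, 23751, 20484, 11286],
   [16171, 24237, 182, 14490, 50368, -23656, 26964, 11822, 11822, 26148, 14490],
   [-7690, -18373, 26148, 20484, -23656, 65252, -18564, 20696, 20696, 15066, 20484],
   [-7860, 19005, 26964, 28322, 26964, -18564, 67549, -19983, -19983, -18564, 28322],
   [26894, 14939, 11822, -26053, 11822, 20696, -19983, 58944, 8758, 20696, 23751],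
   [26894, 14939, 11822, 23751, 11822, 20696, -19983, 8758, 58944, 20696, -26053],
   [-7690, -18373, -23656, 20484, 26148, 15066, -18564, 20696, 20696, 65252, 20484],
   [-18374, -9057, 14490, 11286, 14490, 20484, 28322, 23751, -26053, 20484, 61472]]

def R2 : List (List ℤ) :=
  [[98361, -37332, -16224, 18324, -16224, 7677, 7863, -26871, -26871, 7677, 18324],
   [-37332, 98425, -24270, 9010, -24270, 18334, -19028, -14945, -14945, 18334, 9010],
   [-16224, -24270, 105940, -14532, -14760, -11598, -26977, -11826, -11826, 9110, -14532],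
   [18324, 9010, -14532, 94890, -14532, -20469, -28317, 11516, -9192, -20469, -25810],
   [-16224, -24270, -14760, -14532, 105940, 9110, -26977, -11826, -11826, -11598, -14532],
   [7677, 18334, -11598, -20469, 9110, 91146, 18548, -20683, -20683, -29554, -20469],
   [7863, -19028, -26977, -28317, -26977, 18548, 74176, 19888, 19888, 18548, -28317],
   [-26871, -14945, -11826, 11516, -11826, -20683, 19888, 97383, -23317, -20683, -9192],
   [-26871, -14945, -11826, -9192, -11826, -20683, 19888, -23317, 97383, -20683, 11516],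
   [7677, 18334, 9110, -20469, -11598, -29554, 18548, -20683, -20683, 91146, -20469],
   [18324, 9010, -14532, -25810, -14532, -20469, -28317, -9192, 11516, -20469, 94890]]

def Bm : List (List ℤ) :=
  [[152893, 129569, 17230, 23400, 17230, 46683, 21897, 40514, 40514, 46683, 23400, -6170],
   [129569, 168073, 53813, 60923, 53813, 22459, 15207, 15350, 15350, 22459, 60923, -7110],
   [17230, 53813, 204736, 54255, 104696, 17671, 45567, 68113, 68113, 117671, 54255, 50441],
   [23400, 60923, 54255, 182629, 54255, 45065, 30387, 116731, 16731, 45065, 82589, -28334],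
   [17230, 53813, 104696, 54255, 204736, 117671, 45567, 68113, 68113, 17671, 54255, 50441],
   [46683, 22459, 17671, 45065, 117671, 169329, 37077, 41896, 41896, 69289, 45065, -27394],
   [21897, 15207, 45567, 30387, 45567, 37077, 186717, 52257, 52257, 37077, 30387, 15180],
   [40514, 15350, 68113, 116731, 68113, 41896, 52257, 193317, 93277, 41896, 16731, 51382],
   [40514, 15350, 68113, 16731, 68113, 41896, 52257, 93277, 193317, 41896, 116731, 51382],
   [46683, 22459, 117671, 45065, 17671, 69289, 37077, 41896, 41896, 169329, 45065, -27394],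
   [23400, 60923, 54255, 82589, 54255, 45065, 30387, 16731, 116731, 45065, 182629, -28334],
   [-6170, -7110, 50441, -28334, 50441, -27394, 15180, 51382, 51382, -27394, -28334, 78816]]

def R3 : List (List ℤ) :=
  [[64096, 46343, 31809, -10756, 31809, 6342, -9323, 48974, 48974, 6342, -10756, 42549],
   [46343, 66359, 48144, 7111, 48144, -12333, 43307, 28752, 28752, -12333, 7111, 41018],
   [31809, 48144, 58201, 40451, 57651, 24065, 47837, 41319, 41319, 24065, 40451, 17196],
   [-10756, 7111, 40451, 61735, 40451, 43286, 45547, 22522, 22522, 43286, 61184, -20724],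
   [31809, 48144, 57651, 40451, 58201, 24065, 47837, 41319, 41319, 24065, 40451, 17196],
   [6342, -12333, 24065, 43286, 24065, 62492, -7009, 42844, 42844, 61942, 43286, -19209],
   [-9323, 43307, 47837, 45547, 47837, -7009, 88493, -4764, -4764, -7009, 45547, 2288],
   [48974, 28752, 41319, 22522, 41319, 42844, -4764, 62029, 61479, 42844, 22522, 18787],
   [48974, 28752, 41319, 22522, 41319, 42844, -4764, 61479, 62029, 42844, 22522, 18787],
   [6342, -12333, 24065, 43286, 24065, 61942, -7009, 42844, 42844, 62492, 43286, -19209],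
   [-10756, 7111, 40451, 61184, 40451, 43286, 45547, 22522, 22522, 43286, 61735, -20724],
   [42549, 41018, 17196, -20724, 17196, -19209, 2288, 18787, 18787, -19209, -20724, 38542]]

def R4 : List (List ℤ) :=
  [[68733, 53689, -38681, 7537, -38681, 22086, 17188, -24132, -24132, 22086, 7537, -46228],
   [53689, 72872, -18042, 27165, -18042, 8513, -40026, -36693, -36693, 8513, 27165, -45211],
   [-38681, -18042, 102321, -20442, 2098, -41128, -31771, -18588, -18588, 58649, -20442, 22509],
   [7537, 27165, -20442, 91104, -20442, -28813, -35895, 59642, -40135, -28813, -9120, -11348],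
   [-38681, -18042, 2098, -20442, 102321, 58649, -31771, -18588, -18588, -41128, -20442, 22509],
   [22086, 8513, -41128, -28813, 58649, 85002, 21256, -27536, -27536, -15222, -28813, -12326],
   [17188, -40026, -31771, -35895, -31771, 21256, 99831, 25379, 25379, 21256, -35895, 4098],
   [-24132, -36693, -18588, 59642, -18588, -27536, 25379, 94235, -5989, -27536, -40135, 21531],
   [-24132, -36693, -18588, -40135, -18588, -27536, 25379, -5989, 94235, -27536, 59642, 21531],
   [22086, 8513, 58649, -28813, -41128, -15222, 21256, -27536, -27536, 85002, -28813, -12326],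
   [7537, 27165, -20442, -9120, -20442, -28813, -35895, -40135, 59642, -28813, 91104, -11348],
   [-46228, -45211, 22509, -11348, 22509, -12326, 4098, 21531, 21531, -12326, -11348, 34322]]


/-- matrix entry -/
def ent (L : List (List ℤ)) (i j : ℕ) : ℤ := (L.getD i []).getD j 0

/-- index of a vertex of the subdivided graph: the new vertex is number `11` -/
def idx : Option (Fin 11) → ℕ
  | some i => i.val
  | none => 11

/-- The counterexample graph. -/
def G11 : SimpleGraph (Fin 11) where
  Adj i j := ent adjG i j = 1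
  symm := ⟨by decide +kernel⟩
  loopless := ⟨by decide +kernel⟩

instance : DecidableRel G11.Adj := fun i j => inferInstanceAs (Decidable (ent adjG i j = 1))

lemma adjG_zero_one : ∀ i j : Fin 11, ent adjG i j = if ent adjG i j = 1 then 1 else 0 := by
  decide +kernel

lemma adjH_ss : ∀ a b : Fin 11, ent adjH a b =
    if ent adjG a b = 1 ∧ ¬ (a = 0 ∧ b = 1) ∧ ¬ (a = 1 ∧ b = 0) then 1 else 0 := by
  decide +kernel

lemma adjH_sn : ∀ a : Fin 11, ent adjH a 11 = if a = 0 ∨ a = 1 then 1 else 0 := by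
  decide +kernel

lemma adjH_ns : ∀ a : Fin 11, ent adjH 11 a = if a = 0 ∨ a = 1 then 1 else 0 := by
  decide +kernel

lemma adjH_nn : ent adjH 11 11 = 0 := by
  decide +kernel

/-- integer matrix `s + Y` -/
def M1 (i j : Fin 11) : ℤ := (if i = j then 100000 else 0) + ent Y i j
/-- integer matrix `s - Y` -/
def M2 (i j : Fin 11) : ℤ := (if i = j then 100000 else 0) - ent Y i j
/-- integer matrix `B + s A'` -/
def M3 (i j : Option (Fin 11)) : ℤ := ent Bm (idx i) (idx j) + 100000 * ent adjH (idx i) (idx j)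
/-- integer matrix `B - s A'` -/
def M4 (i j : Option (Fin 11)) : ℤ := ent Bm (idx i) (idx j) - 100000 * ent adjH (idx i) (idx j)

lemma M1_symm : ∀ i j, M1 i j = M1 j i := by decide +kernel
lemma M2_symm : ∀ i j, M2 i j = M2 j i := by decide +kernel
lemma M3_symm : ∀ i j, M3 i j = M3 j i := by decide +kernel
lemma M4_symm : ∀ i j, M4 i j = M4 j i := by decide +kernel

lemma M1_dd : ∀ i : Fin 11, ∑ j, |100000 * M1 i j - ∑ k : Fin 11, ent R1 k i * ent R1 k j| ≤
    2 * (100000 * M1 i i - ∑ k : Fin 11, ent R1 k i * ent R1 k i) := by decide +kernel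
lemma M2_dd : ∀ i : Fin 11, ∑ j, |100000 * M2 i j - ∑ k : Fin 11, ent R2 k i * ent R2 k j| ≤
    2 * (100000 * M2 i i - ∑ k : Fin 11, ent R2 k i * ent R2 k i) := by decide +kernel
lemma M3_dd : ∀ i : Option (Fin 11),
    ∑ j, |100000 * M3 i j - ∑ k : Option (Fin 11), ent R3 (idx k) (idx i) * ent R3 (idx k) (idx j)| ≤
    2 * (100000 * M3 i i -
      ∑ k : Option (Fin 11), ent R3 (idx k) (idx i) * ent R3 (idx k) (idx i)) := by
  decide +kernel
lemma M4_dd : ∀ i : Option (Fin 11),
    ∑ j, |100000 * M4 i j - ∑ k : Option (Fin 11), ent R4 (idx k) (idx i) * ent R4 (idx k) (idx j)| ≤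
    2 * (100000 * M4 i i -
      ∑ k : Option (Fin 11), ent R4 (idx k) (idx i) * ent R4 (idx k) (idx i)) := by
  decide +kernel

lemma quad_form {V : Type*} [Fintype V] (M : Matrix V V ℝ) (x : V → ℝ) :
    x ⬝ᵥ (M *ᵥ x) = ∑ i, ∑ j, M i j * (x i * x j) := by
  unfold dotProduct
  refine sum_congr rfl fun i _ => ?_
  rw [Matrix.mulVec, dotProduct, mul_sum]
  exact sum_congr rfl fun j _ => by ring

/-- the adjacency matrix of `G11` -/
lemma adj_G11 (inst : DecidableRel G11.Adj) (i j : Fin 11) :
    (@SimpleGraph.adjMatrix ℝ _ G11 inst _ _) i j = (ent adjG i j : ℝ) := by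
  rw [SimpleGraph.adjMatrix_apply, adjG_zero_one i j]
  by_cases h : ent adjG i j = 1
  · rw [if_pos (show G11.Adj i j from h), if_pos h]; norm_num
  · rw [if_neg (show ¬ G11.Adj i j from h), if_neg h]; norm_num

/-- the adjacency matrix of the subdivided graph -/
lemma adj_H (inst : DecidableRel (subdivide G11 0 1).Adj) (i j : Option (Fin 11)) :
    (@SimpleGraph.adjMatrix ℝ _ (subdivide G11 0 1) inst _ _) i j
      = (ent adjH (idx i) (idx j) : ℝ) := by
  rw [SimpleGraph.adjMatrix_apply]
  rcases i with _ | a <;> rcases j with _ | b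
  · rw [if_neg (show ¬ (subdivide G11 0 1).Adj none none from fun h => h)]
    show (0 : ℝ) = (ent adjH 11 11 : ℝ)
    rw [adjH_nn]; norm_num
  · show _ = (ent adjH 11 b : ℝ)
    rw [adjH_ns]
    by_cases h : b = 0 ∨ b = 1
    · rw [if_pos (show (subdivide G11 0 1).Adj none (some b) from h), if_pos h]; norm_num
    · rw [if_neg (show ¬ (subdivide G11 0 1).Adj none (some b) from h), if_neg h]; norm_num
  · show _ = (ent adjH a 11 : ℝ)
    rw [adjH_sn]
    by_cases h : a = 0 ∨ a = 1
    · rw [if_pos (show (subdivide G11 0 1).Adj (some a) none from h), if_pos h]; norm_num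
    · rw [if_neg (show ¬ (subdivide G11 0 1).Adj (some a) none from h), if_neg h]; norm_num
  · show _ = (ent adjH a b : ℝ)
    rw [adjH_ss]
    by_cases h : ent adjG a b = 1 ∧ ¬ (a = 0 ∧ b = 1) ∧ ¬ (a = 1 ∧ b = 0)
    · rw [if_pos (show (subdivide G11 0 1).Adj (some a) (some b) from h), if_pos h]; norm_num
    · rw [if_neg (show ¬ (subdivide G11 0 1).Adj (some a) (some b) from h), if_neg h]; norm_num

/-- `tr (A Y)` as an integer -/
lemma trace_low : 2088200 ≤ ∑ i : Fin 11, ∑ j : Fin 11, ent adjG i j * ent Y j i := by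
  decide +kernel

lemma trace_up : ∑ i : Option (Fin 11), ent Bm (idx i) (idx i) ≤ 2086600 := by
  decide +kernel

/-- Lower bound for the energy of `G11`. -/
lemma energy_G11 : (20.882 : ℝ) ≤ energy G11 := by
  classical
  have key := le_sum_abs (isHermitian_adjMatrix G11) (Matrix.of fun i j : Fin 11 => (ent Y i j : ℝ)) 100000
    (fun x => by
      have h := quad_nonneg M1 (fun i j => ent R1 i j) 100000 (by norm_num) M1_symm M1_dd x
      have e : ∑ i, ∑ j, (M1 i j : ℝ) * (x i * x j) = 100000 * (x ⬝ᵥ x) +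
          x ⬝ᵥ ((Matrix.of fun i j : Fin 11 => (ent Y i j : ℝ)) *ᵥ x) := by
        rw [quad_form, dotProduct, mul_sum, ← sum_add_distrib]
        refine sum_congr rfl fun i _ => ?_
        simp only [M1, Matrix.of_apply]
        push_cast
        simp only [add_mul, sum_add_distrib, ite_mul, zero_mul, sum_ite_eq, mem_univ, if_true]
      rw [← e]; exact h)
    (fun x => by
      have h := quad_nonneg M2 (fun i j => ent R2 i j) 100000 (by norm_num) M2_symm M2_dd x
      have e : ∑ i, ∑ j, (M2 i j : ℝ) * (x i * x j) = 100000 * (x ⬝ᵥ x) -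
          x ⬝ᵥ ((Matrix.of fun i j : Fin 11 => (ent Y i j : ℝ)) *ᵥ x) := by
        rw [quad_form, dotProduct, mul_sum, ← sum_sub_distrib]
        refine sum_congr rfl fun i _ => ?_
        simp only [M2, Matrix.of_apply]
        push_cast
        simp only [sub_mul, sum_sub_distrib, ite_mul, zero_mul, sum_ite_eq, mem_univ, if_true]
      rw [← e]; exact h)
  have htr : (2088200 : ℝ) ≤ ((@SimpleGraph.adjMatrix ℝ _ G11 (Classical.decRel _) _ _) *
      (Matrix.of fun i j : Fin 11 => (ent Y i j : ℝ))).trace := by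
    rw [Matrix.trace]
    have : ∀ i : Fin 11, ((@SimpleGraph.adjMatrix ℝ _ G11 (Classical.decRel _) _ _) *
        (Matrix.of fun i j : Fin 11 => (ent Y i j : ℝ))).diag i
        = ∑ j : Fin 11, (ent adjG i j : ℝ) * (ent Y j i : ℝ) := by
      intro i
      rw [Matrix.diag_apply, Matrix.mul_apply]
      exact sum_congr rfl fun j _ => by rw [adj_G11, Matrix.of_apply]
    rw [sum_congr rfl fun i _ => this i]
    exact_mod_cast trace_low
  have h2 : (2088200 : ℝ) ≤ 100000 * energy G11 := le_trans htr key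
  linarith

/-- Upper bound for the energy of the subdivided graph. -/
lemma energy_H : energy (subdivide G11 0 1) ≤ (20.866 : ℝ) := by
  classical
  have key := sum_abs_le (isHermitian_adjMatrix (subdivide G11 0 1))
    (Matrix.of fun i j : Option (Fin 11) => (ent Bm (idx i) (idx j) : ℝ)) 100000 (by norm_num)
    (fun x => by
      have h := quad_nonneg M3 (fun i j => ent R3 (idx i) (idx j)) 100000 (by norm_num)
        M3_symm M3_dd x
      have e : ∑ i, ∑ j, (M3 i j : ℝ) * (x i * x j) =
          x ⬝ᵥ ((Matrix.of fun i j : Option (Fin 11) => (ent Bm (idx i) (idx j) : ℝ)) *ᵥ x) + 100000 *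
          (x ⬝ᵥ ((@SimpleGraph.adjMatrix ℝ _ (subdivide G11 0 1) (Classical.decRel _) _ _) *ᵥ x)) := by
        rw [quad_form, quad_form, mul_sum, ← sum_add_distrib]
        refine sum_congr rfl fun i _ => ?_
        rw [mul_sum, ← sum_add_distrib]
        refine sum_congr rfl fun j _ => ?_
        simp only [M3, Matrix.of_apply, adj_H]
        push_cast
        ring
      rw [← e]; exact h)
    (fun x => by
      have h := quad_nonneg M4 (fun i j => ent R4 (idx i) (idx j)) 100000 (by norm_num)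
        M4_symm M4_dd x
      have e : ∑ i, ∑ j, (M4 i j : ℝ) * (x i * x j) =
          x ⬝ᵥ ((Matrix.of fun i j : Option (Fin 11) => (ent Bm (idx i) (idx j) : ℝ)) *ᵥ x) - 100000 *
          (x ⬝ᵥ ((@SimpleGraph.adjMatrix ℝ _ (subdivide G11 0 1) (Classical.decRel _) _ _) *ᵥ x)) := by
        rw [quad_form, quad_form, mul_sum, ← sum_sub_distrib]
        refine sum_congr rfl fun i _ => ?_
        rw [mul_sum, ← sum_sub_distrib]
        refine sum_congr rfl fun j _ => ?_
        simp only [M4, Matrix.of_apply, adj_H]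
        push_cast
        ring
      rw [← e]; exact h)
  have htr : (Matrix.of fun i j : Option (Fin 11) => (ent Bm (idx i) (idx j) : ℝ)).trace
      ≤ 2086600 := by
    rw [Matrix.trace]
    simp only [Matrix.diag_apply, Matrix.of_apply]
    exact_mod_cast trace_up
  have h2 : 100000 * energy (subdivide G11 0 1) ≤ 2086600 := le_trans key htr
  linarith

/-- There is a connected graph on 11 vertices with an edge `ij` such that subdividing `ij`
strictly decreases the energy, although `ij` is not the central edge of an induced diamond and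
condition 2 fails for `ij`. -/
theorem result : ∃ (G : SimpleGraph (Fin 11)) (i j : Fin 11), G.Connected ∧ G.Adj i j ∧
    energy (subdivide G i j) < energy G ∧
    ¬ IsCentralEdgeOfInducedDiamond G i j ∧ ¬ CliqueCondition G i j := by
  refine ⟨G11, 0, 1, ?_, ?_, ?_, ?_, ?_⟩
  · have hpath : ∀ i : Fin 11, G11.Adj 2 i ∨ i = 2 ∨ (G11.Adj 2 4 ∧ G11.Adj 4 i) := by
      decide +kernel
    have h2 : ∀ i : Fin 11, G11.Reachable 2 i := by
      intro i
      rcases hpath i with h | h | ⟨h, h'⟩
      · exact h.reachable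
      · rw [h]
      · exact h.reachable.trans h'.reachable
    exact ⟨fun u v => (h2 u).symm.trans (h2 v)⟩
  · show ent adjG 0 1 = 1
    decide +kernel
  · have h1 := energy_G11
    have h2 := energy_H
    linarith
  · rintro ⟨-, a, b, hab, hnab, h0a, h0b, h1a, h1b⟩
    have : ∀ a b : Fin 11, a ≠ b → ¬ G11.Adj a b → G11.Adj 0 a → G11.Adj 0 b → G11.Adj 1 a →
        G11.Adj 1 b → False := by decide +kernel
    exact this a b hab hnab h0a h0b h1a h1b
  · rintro ⟨h, -, -⟩
    have h6 : (6 : Fin 11) ∈ closedNbhd G11 1 := by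
      right
      show ent adjG 1 6 = 1
      decide +kernel
    rw [← h] at h6
    rcases h6 with h6 | h6
    · exact absurd h6 (by decide)
    · have : ¬ G11.Adj 0 6 := by decide +kernel
      exact this h6

end Pool.Agent.Results.MP_8ce0fa_co.EnergyDrop
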